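import Pool.Agent.Helper40_Dio.FStmt

/-! # DIO (MP_9ca527_nt), Part F, module PS7 -/

set_option autoImplicit false

namespace Pool.Agent.DIO.H94

open Pool.Agent.DIO

theorem ps7_b_large (a b Y : ℕ) (hab : a < b) (hY : 100 ≤ Y) (h : Y ^ 420 < a * b) :
    Y ^ 25 < b := by
  by_contra hcon
  push Not at hcon
  have h1 : a * b ≤ Y ^ 25 * Y ^ 25 := Nat.mul_le_mul (by omega) hcon
  have h2 : Y ^ 25 * Y ^ 25 ≤ Y ^ 420 := by
    rw [← pow_add]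
    exact Nat.pow_le_pow_right (by omega) (by norm_num)
  omega

/-- Powers grow by a factor of at least `100`. -/
theorem ps7_step (Y : ℤ) (hY : 100 ≤ Y) (k : ℕ) : 100 * Y ^ k ≤ Y ^ (k + 1) := by
  have hY0 : 0 < Y := lt_of_lt_of_le (by norm_num) hY
  rw [pow_succ, mul_comm (Y ^ k) Y]
  exact mul_le_mul_of_nonneg_right hY (pow_pos hY0 k).le

theorem ps7_mono (Y : ℤ) (hY : 100 ≤ Y) (i j : ℕ) (hij : i ≤ j) : Y ^ i ≤ Y ^ j :=
  pow_le_pow_right₀ (le_trans (by norm_num) hY) hij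

theorem ps7_pos (Y : ℤ) (hY : 100 ≤ Y) (k : ℕ) : 0 < Y ^ k :=
  pow_pos (lt_of_lt_of_le (by norm_num) hY) k

/-- `C Yⁱ ≤ Yʲ` when `C ≤ 100` and `i + 1 ≤ j`. -/
theorem ps7_absorb (Y : ℤ) (hY : 100 ≤ Y) (C : ℤ) (hC : C ≤ 100) (i j : ℕ)
    (hij : i + 1 ≤ j) : C * Y ^ i ≤ Y ^ j := by
  have h1 : C * Y ^ i ≤ 100 * Y ^ i := mul_le_mul_of_nonneg_right hC (ps7_pos Y hY i).le
  exact le_trans h1 (le_trans (ps7_step Y hY i) (ps7_mono Y hY (i + 1) j hij))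

theorem ps7_sizes (n l Y : ℤ) (hY : 100 ≤ Y) (hn : 1 ≤ n) (hnY : n ≤ Y) (hl : 0 ≤ l)
    (hlY : l ≤ Y) :
    1 ≤ n ^ 2 ∧ n ^ 2 ≤ Y ^ 2 ∧ 0 ≤ l * (l + 1) ∧ l * (l + 1) ≤ 2 * Y ^ 2 ∧
      100 * Y ≤ Y ^ 2 ∧ 100 * Y ^ 2 ≤ Y ^ 3 := by
  have hY0 : 0 ≤ Y := le_trans (by norm_num) hY
  have hn0 : 0 ≤ n := le_trans (by norm_num) hn
  have hl1 : 0 ≤ l + 1 := add_nonneg hl (by norm_num)
  refine ⟨one_le_pow₀ hn, pow_le_pow_left₀ hn0 hnY 2, mul_nonneg hl hl1, ?_, ?_,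
    ps7_step Y hY 2⟩
  · calc l * (l + 1) ≤ Y * (2 * Y) := by
          apply mul_le_mul hlY _ hl1 hY0
          linarith only [hlY, hY]
      _ = 2 * Y ^ 2 := by ring
  · have h := ps7_step Y hY 1
    rw [pow_one] at h
    exact h

theorem ps7_coeff (n l Y : ℤ) (hY : 100 ≤ Y) (hn : 1 ≤ n) (hnY : n ≤ Y) (hl : 0 ≤ l)
    (hlY : l ≤ Y) :
    |2 * l * (l + 1) - 4 * n ^ 2 - 3 * n| ≤ Y ^ 3 ∧ |2 * l + 1| ≤ Y ^ 3 ∧
      |4 * n ^ 2 + n| ≤ Y ^ 3 ∧ |2 * n ^ 2 + n| ≤ Y ^ 3 := by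
  obtain ⟨s1, s2, s3, s4, s5, s6⟩ := ps7_sizes n l Y hY hn hnY hl hlY
  have e : 2 * l * (l + 1) = 2 * (l * (l + 1)) := by ring
  rw [e]
  generalize l * (l + 1) = L at s3 s4
  generalize n ^ 2 = N at s1 s2
  generalize Y ^ 3 = Z at s6
  generalize Y ^ 2 = W at s2 s4 s5 s6
  simp only [abs_le]
  refine ⟨⟨?_, ?_⟩, ⟨?_, ?_⟩, ⟨?_, ?_⟩, ⟨?_, ?_⟩⟩
  · linarith only [s1, s2, s3, s4, s5, s6, hn, hnY, hl, hlY, hY]
  · linarith only [s1, s2, s3, s4, s5, s6, hn, hnY, hl, hlY, hY]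
  · linarith only [s1, s2, s3, s4, s5, s6, hn, hnY, hl, hlY, hY]
  · linarith only [s1, s2, s3, s4, s5, s6, hn, hnY, hl, hlY, hY]
  · linarith only [s1, s2, s3, s4, s5, s6, hn, hnY, hl, hlY, hY]
  · linarith only [s1, s2, s3, s4, s5, s6, hn, hnY, hl, hlY, hY]
  · linarith only [s1, s2, s3, s4, s5, s6, hn, hnY, hl, hlY, hY]
  · linarith only [s1, s2, s3, s4, s5, s6, hn, hnY, hl, hlY, hY]

/-- A bounded combination divisible by `b` vanishes. -/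
theorem ps7_zero (a b r g h x y z w T : ℤ) (ha : 0 < a) (hr : 0 < r) (hg : 0 < g)
    (hh : 0 < h) (c1 : |x| ≤ T) (c2 : |y| ≤ T) (c3 : |z| ≤ T) (c4 : |w| ≤ T)
    (hA : 4 * T * a < b) (hR : 4 * T * r < b) (hG : 4 * T * g < b) (hH : 4 * T * h < b)
    (hdvd : b ∣ a * x + r * y - g * z + h * w) : a * x + r * y - g * z + h * w = 0 := by
  apply Int.eq_zero_of_abs_lt_dvd hdvd
  have e1 : |a * x| ≤ a * T := by
    rw [abs_mul, abs_of_pos ha]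
    exact mul_le_mul_of_nonneg_left c1 ha.le
  have e2 : |r * y| ≤ r * T := by
    rw [abs_mul, abs_of_pos hr]
    exact mul_le_mul_of_nonneg_left c2 hr.le
  have e3 : |g * z| ≤ g * T := by
    rw [abs_mul, abs_of_pos hg]
    exact mul_le_mul_of_nonneg_left c3 hg.le
  have e4 : |h * w| ≤ h * T := by
    rw [abs_mul, abs_of_pos hh]
    exact mul_le_mul_of_nonneg_left c4 hh.le
  have e5 := abs_add_le (a * x + r * y - g * z) (h * w)
  have e6 := abs_sub (a * x + r * y) (g * z)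
  have e7 := abs_add_le (a * x) (r * y)
  linarith only [e1, e2, e3, e4, e5, e6, e7, hA, hR, hG, hH]

theorem ps7_h_lt (a b g h Y : ℤ) (ha : 0 < a) (hg : 0 < g)
    (hgt : 4 * (a * g * h) < b) (h2 : b ≤ Y ^ 4 * (a ^ 2 * g)) : 4 * h < Y ^ 4 * a := by
  have h3 : (a * g) * (4 * h) < (a * g) * (Y ^ 4 * a) := by
    calc (a * g) * (4 * h) = 4 * (a * g * h) := by ring
      _ < b := hgt
      _ ≤ Y ^ 4 * (a ^ 2 * g) := h2
      _ = (a * g) * (Y ^ 4 * a) := by ring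
  exact lt_of_mul_lt_mul_left h3 (mul_pos ha hg).le

theorem ps7_a_le (a b g h Y : ℤ) (hY : 100 ≤ Y) (ha : 0 < a) (hg : 0 < g)
    (hle : b ≤ 16 * (a * g * h)) (h1 : a ^ 2 * g ≤ 4 * b * Y ^ 4) : a ≤ 64 * Y ^ 4 * h := by
  have h3 : (a * g) * a ≤ (a * g) * (64 * Y ^ 4 * h) := by
    calc (a * g) * a = a ^ 2 * g := by ring
      _ ≤ 4 * b * Y ^ 4 := h1
      _ ≤ 4 * (16 * (a * g * h)) * Y ^ 4 := by
          apply mul_le_mul_of_nonneg_right _ (ps7_pos Y hY 4).le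
          linarith only [hle]
      _ = (a * g) * (64 * Y ^ 4 * h) := by ring
  exact le_of_mul_le_mul_left h3 (mul_pos ha hg)

theorem ps7_aa (a b g Y : ℤ) (hg : 0 < g)
    (h1 : a ^ 2 * g ≤ 4 * b * Y ^ 4) : a ^ 2 ≤ 4 * b * Y ^ 4 := by
  have h3 : a ^ 2 * 1 ≤ a ^ 2 * g :=
    mul_le_mul_of_nonneg_left (Int.add_one_le_iff.mpr hg) (sq_nonneg a)
  rw [mul_one] at h3
  exact le_trans h3 h1

/-- The master inequality. -/
theorem ps7_master (a b Y : ℤ) (hY : 100 ≤ Y) (hb : 0 < b) (hbig : Y ^ 25 < b)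
    (haa : a ^ 2 ≤ 4 * b * Y ^ 4) : Y ^ 10 * a < b := by
  have h3 : (Y ^ 10 * a) ^ 2 < b ^ 2 := by
    calc (Y ^ 10 * a) ^ 2 = Y ^ 20 * a ^ 2 := by ring
      _ ≤ Y ^ 20 * (4 * b * Y ^ 4) := mul_le_mul_of_nonneg_left haa (ps7_pos Y hY 20).le
      _ = b * (4 * Y ^ 24) := by ring
      _ < b * b := by
          apply mul_lt_mul_of_pos_left _ hb
          exact lt_of_le_of_lt (ps7_absorb Y hY 4 (by norm_num) 24 25 (by norm_num)) hbig
      _ = b ^ 2 := by ring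
  exact lt_of_pow_lt_pow_left₀ 2 hb.le h3

theorem ps7_R (a b r Y : ℤ) (hY : 100 ≤ Y) (ha : 0 < a) (hb : 0 < b)
    (hrr : r * r = a * b + 1) (hmast : Y ^ 10 * a < b) : 4 * Y ^ 3 * r < b := by
  have h3 : 32 * Y ^ 6 * a < b :=
    lt_of_le_of_lt (mul_le_mul_of_nonneg_right
      (ps7_absorb Y hY 32 (by norm_num) 6 10 (by norm_num)) ha.le) hmast
  have h5 : r ^ 2 ≤ 2 * (a * b) := by
    have h6 : 0 < a * b := mul_pos ha hb
    have h7 : r ^ 2 = a * b + 1 := by rw [← hrr]; ring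
    rw [h7]
    generalize a * b = P at h6
    omega
  have h6 : (4 * Y ^ 3 * r) ^ 2 < b ^ 2 := by
    calc (4 * Y ^ 3 * r) ^ 2 = 16 * Y ^ 6 * r ^ 2 := by ring
      _ ≤ 16 * Y ^ 6 * (2 * (a * b)) :=
          mul_le_mul_of_nonneg_left h5 (mul_nonneg (by norm_num) (ps7_pos Y hY 6).le)
      _ = (32 * Y ^ 6 * a) * b := by ring
      _ < b * b := mul_lt_mul_of_pos_right h3 hb
      _ = b ^ 2 := by ring
  exact lt_of_pow_lt_pow_left₀ 2 hb.le h6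

theorem ps7_A (a b Y : ℤ) (hY : 100 ≤ Y) (ha : 0 < a) (hmast : Y ^ 10 * a < b) :
    4 * Y ^ 3 * a < b :=
  lt_of_le_of_lt (mul_le_mul_of_nonneg_right
    (ps7_absorb Y hY 4 (by norm_num) 3 10 (by norm_num)) ha.le) hmast

theorem ps7_G (a b g h Y : ℤ) (hY : 100 ≤ Y) (hg : 0 < g) (hah : Y ^ 40 < a * h)
    (hgt : 4 * (a * g * h) < b) : 4 * Y ^ 3 * g < b := by
  have h3 : Y ^ 3 ≤ a * h := le_trans (ps7_mono Y hY 3 40 (by norm_num)) hah.le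
  have h4 := mul_le_mul_of_nonneg_right h3 hg.le
  calc 4 * Y ^ 3 * g = 4 * (Y ^ 3 * g) := by ring
    _ ≤ 4 * ((a * h) * g) := mul_le_mul_of_nonneg_left h4 (by norm_num)
    _ = 4 * (a * g * h) := by ring
    _ < b := hgt

theorem ps7_H (a b h Y : ℤ) (hY : 100 ≤ Y) (ha : 0 < a) (hh1 : 4 * h < Y ^ 4 * a)
    (hmast : Y ^ 10 * a < b) : 4 * Y ^ 3 * h < b := by
  calc 4 * Y ^ 3 * h = Y ^ 3 * (4 * h) := by ring
    _ ≤ Y ^ 3 * (Y ^ 4 * a) := mul_le_mul_of_nonneg_left hh1.le (ps7_pos Y hY 3).le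
    _ = Y ^ 7 * a := by ring
    _ ≤ Y ^ 10 * a := mul_le_mul_of_nonneg_right (ps7_mono Y hY 7 10 (by norm_num)) ha.le
    _ < b := hmast

/-- `r ≤ 5 Y² (a + g)`. -/
theorem ps7_r_le (a r g h n l Y : ℤ) (ha : 0 < a) (hr : 0 < r) (hg : 0 < g) (hh : 0 < h)
    (hY : 100 ≤ Y) (hn : 1 ≤ n) (hnY : n ≤ Y) (hl : 0 ≤ l) (hlY : l ≤ Y)
    (hrel : r * (2 * l + 1) = a * (4 * n ^ 2 + 3 * n - 2 * l * (l + 1)) +
      g * (4 * n ^ 2 + n) - h * (2 * n ^ 2 + n)) : r ≤ 5 * Y ^ 2 * (a + g) := by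
  obtain ⟨s1, s2, s3, s4, s5, s6⟩ := ps7_sizes n l Y hY hn hnY hl hlY
  have h3 : r ≤ r * (2 * l + 1) := by
    have : r * 1 ≤ r * (2 * l + 1) :=
      mul_le_mul_of_nonneg_left (by linarith only [hl]) hr.le
    rwa [mul_one] at this
  have h4 : a * (4 * n ^ 2 + 3 * n - 2 * l * (l + 1)) ≤ a * (5 * Y ^ 2) := by
    apply mul_le_mul_of_nonneg_left _ ha.le
    linarith only [s1, s2, s3, s4, s5, hn, hnY, hY]
  have h5 : g * (4 * n ^ 2 + n) ≤ g * (5 * Y ^ 2) := by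
    apply mul_le_mul_of_nonneg_left _ hg.le
    linarith only [s1, s2, s3, s4, s5, hn, hnY, hY]
  have h6 : 0 ≤ h * (2 * n ^ 2 + n) := by
    apply mul_nonneg hh.le
    linarith only [s1, hn]
  calc r ≤ r * (2 * l + 1) := h3
    _ = a * (4 * n ^ 2 + 3 * n - 2 * l * (l + 1)) +
      g * (4 * n ^ 2 + n) - h * (2 * n ^ 2 + n) := hrel
    _ ≤ a * (5 * Y ^ 2) + g * (5 * Y ^ 2) := by
        generalize a * (4 * n ^ 2 + 3 * n - 2 * l * (l + 1)) = A at h4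
        generalize g * (4 * n ^ 2 + n) = B at h5
        generalize h * (2 * n ^ 2 + n) = C at h6
        generalize a * (5 * Y ^ 2) = D at h4
        generalize g * (5 * Y ^ 2) = E at h5
        linarith only [h4, h5, h6]
    _ = 5 * Y ^ 2 * (a + g) := by ring

theorem ps7_sq_le (x y : ℤ) (hx : 0 < x) (hy : 0 < y) (hxy : x ≤ y) :
    (x + y) ^ 2 ≤ 4 * y ^ 2 := by
  calc (x + y) ^ 2 ≤ (2 * y) ^ 2 :=
        pow_le_pow_left₀ (add_pos hx hy).le (by linarith only [hxy]) 2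
    _ = 4 * y ^ 2 := by ring

/-- The case `a > g` is impossible. -/
theorem ps7_case_a (a b g h Y : ℤ) (ha : 0 < a) (hg : 0 < g) (hh : 0 < h) (hY : 100 ≤ Y)
    (hah : Y ^ 40 < a * h) (hle : b ≤ 16 * (a * g * h))
    (haa : a ^ 2 ≤ 4 * b * Y ^ 4)
    (hr2 : 4 * (a ^ 2 * g * h) < 25 * Y ^ 4 * (a + g) ^ 2) (hag : g < a) : False := by
  have q4 := ps7_pos Y hY 4
  have q8 := ps7_pos Y hY 8
  have q12 := ps7_pos Y hY 12
  have h3 : (a + g) ^ 2 ≤ 4 * a ^ 2 := by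
    rw [add_comm a g]
    exact ps7_sq_le g a hg ha hag.le
  have h4 : 25 * Y ^ 4 * (a + g) ^ 2 ≤ 25 * Y ^ 4 * (4 * a ^ 2) :=
    mul_le_mul_of_nonneg_left h3 (mul_nonneg (by norm_num) q4.le)
  have h5 : (4 * a ^ 2) * (g * h) < (4 * a ^ 2) * (25 * Y ^ 4) := by
    calc (4 * a ^ 2) * (g * h) = 4 * (a ^ 2 * g * h) := by ring
      _ < 25 * Y ^ 4 * (a + g) ^ 2 := hr2
      _ ≤ 25 * Y ^ 4 * (4 * a ^ 2) := h4
      _ = (4 * a ^ 2) * (25 * Y ^ 4) := by ring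
  have h6 : g * h < 25 * Y ^ 4 :=
    lt_of_mul_lt_mul_left h5 (mul_nonneg (by norm_num) (sq_nonneg a))
  have h7 : h < 25 * Y ^ 4 := by
    have h8 : 1 * h ≤ g * h := mul_le_mul_of_nonneg_right (Int.add_one_le_iff.mpr hg) hh.le
    rw [one_mul] at h8
    exact lt_of_le_of_lt h8 h6
  have h8 : b ≤ 400 * Y ^ 4 * a := by
    calc b ≤ 16 * (a * g * h) := hle
      _ = (16 * a) * (g * h) := by ring
      _ ≤ (16 * a) * (25 * Y ^ 4) :=
          mul_le_mul_of_nonneg_left h6.le (mul_nonneg (by norm_num) ha.le)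
      _ = 400 * Y ^ 4 * a := by ring
  have h9 : a * a ≤ a * (1600 * Y ^ 8) := by
    calc a * a = a ^ 2 := by ring
      _ ≤ 4 * b * Y ^ 4 := haa
      _ ≤ 4 * (400 * Y ^ 4 * a) * Y ^ 4 := by
          apply mul_le_mul_of_nonneg_right _ q4.le
          exact mul_le_mul_of_nonneg_left h8 (by norm_num)
      _ = a * (1600 * Y ^ 8) := by ring
  have h10 : a ≤ 1600 * Y ^ 8 := le_of_mul_le_mul_left h9 ha
  have h11 : a * h ≤ (1600 * Y ^ 8) * (25 * Y ^ 4) :=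
    mul_le_mul h10 h7.le hh.le (mul_nonneg (by norm_num) q8.le)
  have h12 : (1600 * Y ^ 8) * (25 * Y ^ 4) = 40000 * Y ^ 12 := by ring
  have h13 := ps7_step Y hY 12
  have h14 := ps7_step Y hY 13
  have h15 := ps7_step Y hY 14
  have h16 := ps7_mono Y hY 15 40 (by norm_num)
  rw [h12] at h11
  generalize Y ^ 40 = Z at hah h16
  generalize Y ^ (14 + 1) = Y15 at h15 h16
  generalize Y ^ (13 + 1) = Y14 at h14 h15
  generalize Y ^ (12 + 1) = Y13 at h13 h14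
  generalize Y ^ 12 = Y12 at h11 h13 q12
  generalize a * h = P at hah h11
  linarith only [hah, h11, h13, h14, h15, h16, q12]

/-- `a² h ≤ Y⁵ g`. -/
theorem ps7_c1 (a b r g h n l Y : ℤ) (ha : 0 < a) (hr : 0 < r) (hg : 0 < g) (hh : 0 < h)
    (hY : 100 ≤ Y) (hn : 1 ≤ n) (hnY : n ≤ Y) (hl : 0 ≤ l) (hlY : l ≤ Y)
    (hrr : r * r = a * b + 1) (hah : Y ^ 40 < a * h)
    (hgt : 4 * (a * g * h) < b) (hle : b ≤ 16 * (a * g * h))
    (haa : a ^ 2 ≤ 4 * b * Y ^ 4)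
    (hrel : r * (2 * l + 1) = a * (4 * n ^ 2 + 3 * n - 2 * l * (l + 1)) +
      g * (4 * n ^ 2 + n) - h * (2 * n ^ 2 + n)) : a ^ 2 * h ≤ Y ^ 5 * g := by
  have q4 := ps7_pos Y hY 4
  have hr1 := ps7_r_le a r g h n l Y ha hr hg hh hY hn hnY hl hlY hrel
  have hr2 : 4 * (a ^ 2 * g * h) < 25 * Y ^ 4 * (a + g) ^ 2 := by
    calc 4 * (a ^ 2 * g * h) = a * (4 * (a * g * h)) := by ring
      _ < a * b := mul_lt_mul_of_pos_left hgt ha
      _ ≤ a * b + 1 := by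
          generalize a * b = P
          omega
      _ = r ^ 2 := by rw [← hrr]; ring
      _ ≤ (5 * Y ^ 2 * (a + g)) ^ 2 := pow_le_pow_left₀ hr.le hr1 2
      _ = 25 * Y ^ 4 * (a + g) ^ 2 := by ring
  rcases le_or_gt a g with hag | hag
  · have h3 : (a + g) ^ 2 ≤ 4 * g ^ 2 := ps7_sq_le a g ha hg hag
    have h4 : 25 * Y ^ 4 * (a + g) ^ 2 ≤ 25 * Y ^ 4 * (4 * g ^ 2) :=
      mul_le_mul_of_nonneg_left h3 (mul_nonneg (by norm_num) q4.le)
    have h5 : (4 * g) * (a ^ 2 * h) < (4 * g) * (25 * Y ^ 4 * g) := by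
      calc (4 * g) * (a ^ 2 * h) = 4 * (a ^ 2 * g * h) := by ring
        _ < 25 * Y ^ 4 * (a + g) ^ 2 := hr2
        _ ≤ 25 * Y ^ 4 * (4 * g ^ 2) := h4
        _ = (4 * g) * (25 * Y ^ 4 * g) := by ring
    have h6 : a ^ 2 * h < 25 * Y ^ 4 * g :=
      lt_of_mul_lt_mul_left h5 (mul_nonneg (by norm_num) hg.le)
    have h7 : 25 * Y ^ 4 * g ≤ Y ^ 5 * g :=
      mul_le_mul_of_nonneg_right (ps7_absorb Y hY 25 (by norm_num) 4 5 (by norm_num)) hg.le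
    exact le_trans h6.le h7
  · exact (ps7_case_a a b g h Y ha hg hh hY hah hle haa hr2 hag).elim

/-- `2 g ≤ 3 Y r + 4 Y² a` when `h < g`. -/
theorem ps7_g_le (a r g h n l Y : ℤ) (ha : 0 < a) (hr : 0 < r) (hg : 0 < g)
    (hY : 100 ≤ Y) (hn : 1 ≤ n) (hnY : n ≤ Y) (hl : 0 ≤ l) (hlY : l ≤ Y)
    (hrel : r * (2 * l + 1) = a * (4 * n ^ 2 + 3 * n - 2 * l * (l + 1)) +
      g * (4 * n ^ 2 + n) - h * (2 * n ^ 2 + n)) (hgh : h < g) :
    2 * g ≤ 3 * Y * r + 4 * Y ^ 2 * a := by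
  obtain ⟨s1, s2, s3, s4, s5, s6⟩ := ps7_sizes n l Y hY hn hnY hl hlY
  have h4 : h * (2 * n ^ 2 + n) ≤ g * (2 * n ^ 2 + n) :=
    mul_le_mul_of_nonneg_right hgh.le (by linarith only [s1, hn])
  have h6 : g * 2 ≤ g * (2 * n ^ 2) :=
    mul_le_mul_of_nonneg_left (by linarith only [s1]) hg.le
  have h7 : r * (2 * l + 1) ≤ r * (3 * Y) :=
    mul_le_mul_of_nonneg_left (by linarith only [hlY, hY]) hr.le
  have h8 : a * (-(4 * n ^ 2 + 3 * n - 2 * l * (l + 1))) ≤ a * (4 * Y ^ 2) := by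
    apply mul_le_mul_of_nonneg_left _ ha.le
    linarith only [s1, s2, s3, s4, s5, hn, hnY, hY]
  have e1 : g * (4 * n ^ 2 + n) = g * (2 * n ^ 2 + n) + g * (2 * n ^ 2) := by ring
  have e2 : a * (-(4 * n ^ 2 + 3 * n - 2 * l * (l + 1))) =
      -(a * (4 * n ^ 2 + 3 * n - 2 * l * (l + 1))) := by ring
  have e3 : 3 * Y * r = r * (3 * Y) := by ring
  have e4 : 4 * Y ^ 2 * a = a * (4 * Y ^ 2) := by ring
  rw [e3, e4]
  rw [e2] at h8
  rw [e1] at hrel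
  generalize r * (2 * l + 1) = R at hrel h7
  generalize a * (4 * n ^ 2 + 3 * n - 2 * l * (l + 1)) = A at hrel h8
  generalize g * (2 * n ^ 2 + n) = G at hrel h4
  generalize g * (2 * n ^ 2) = K at hrel h6
  generalize h * (2 * n ^ 2 + n) = H at hrel h4
  generalize a * (4 * Y ^ 2) = B at h8
  generalize r * (3 * Y) = S at h7
  linarith only [hrel, h7, h8, h4, h6]

/-- `g ≤ Y⁵ a² h`. -/
theorem ps7_c2 (a b r g h n l Y : ℤ) (ha : 0 < a) (hr : 0 < r) (hg : 0 < g) (hh : 0 < h)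
    (hY : 100 ≤ Y) (hn : 1 ≤ n) (hnY : n ≤ Y) (hl : 0 ≤ l) (hlY : l ≤ Y)
    (hrr : r * r = a * b + 1) (hle : b ≤ 16 * (a * g * h))
    (hrel : r * (2 * l + 1) = a * (4 * n ^ 2 + 3 * n - 2 * l * (l + 1)) +
      g * (4 * n ^ 2 + n) - h * (2 * n ^ 2 + n)) : g ≤ Y ^ 5 * (a ^ 2 * h) := by
  have q2 := ps7_pos Y hY 2
  have a1 : 1 ≤ a := Int.add_one_le_iff.mpr ha
  have hh1 : 1 ≤ h := Int.add_one_le_iff.mpr hh
  have aa1 : 1 ≤ a ^ 2 := one_le_pow₀ a1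
  have haah : a ≤ a ^ 2 * h := by
    have h3 : a * 1 ≤ a * (a * h) :=
      mul_le_mul_of_nonneg_left (Int.add_one_le_iff.mpr (mul_pos ha hh)) ha.le
    calc a = a * 1 := by ring
      _ ≤ a * (a * h) := h3
      _ = a ^ 2 * h := by ring
  have hhah : h ≤ a ^ 2 * h := by
    have h3 : 1 * h ≤ a ^ 2 * h := mul_le_mul_of_nonneg_right aa1 hh.le
    rwa [one_mul] at h3
  have hah0 : 0 < a ^ 2 * h := lt_of_lt_of_le hh hhah
  have habs : ∀ C : ℤ, C ≤ 10000 → C * Y ^ 2 * (a ^ 2 * h) ≤ Y ^ 5 * (a ^ 2 * h) := by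
    intro C hC
    apply mul_le_mul_of_nonneg_right _ hah0.le
    have h3 : 100 * Y ^ 2 ≤ Y ^ 3 := ps7_step Y hY 2
    have h4 : 100 * Y ^ 3 ≤ Y ^ 4 := ps7_step Y hY 3
    have h5 : 100 * Y ^ 4 ≤ Y ^ 5 := ps7_step Y hY 4
    have h6 : C * Y ^ 2 ≤ 10000 * Y ^ 2 := mul_le_mul_of_nonneg_right hC q2.le
    have h7 := ps7_pos Y hY 4
    linarith only [h3, h4, h5, h6, h7]
  rcases le_or_gt g h with hgh | hgh
  · have h3 : 1 * (a ^ 2 * h) ≤ Y ^ 5 * (a ^ 2 * h) :=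
      mul_le_mul_of_nonneg_right (Int.add_one_le_iff.mpr (ps7_pos Y hY 5)) hah0.le
    rw [one_mul] at h3
    exact le_trans (le_trans hgh hhah) h3
  · have h3 := ps7_g_le a r g h n l Y ha hr hg hY hn hnY hl hlY hrel hgh
    rcases le_or_gt (4 * Y ^ 2 * a) (3 * Y * r) with hc | hc
    · have h4 : g ≤ 3 * Y * r := by
        generalize 3 * Y * r = P at h3 hc
        generalize 4 * Y ^ 2 * a = Q at h3 hc
        omega
      have h5 : r ^ 2 ≤ 17 * (a ^ 2 * g * h) := by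
        have h6 : 0 < a ^ 2 * g * h := mul_pos (mul_pos (lt_of_lt_of_le one_pos aa1) hg) hh
        have h7 : a * b ≤ a * (16 * (a * g * h)) := mul_le_mul_of_nonneg_left hle ha.le
        calc r ^ 2 = a * b + 1 := by rw [← hrr]; ring
          _ ≤ a * (16 * (a * g * h)) + 1 := by
              generalize a * (16 * (a * g * h)) = P at h7
              generalize a * b = Q at h7
              omega
          _ = 16 * (a ^ 2 * g * h) + 1 := by ring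
          _ ≤ 17 * (a ^ 2 * g * h) := by
              generalize a ^ 2 * g * h = P at h6
              omega
      have h8 : g * g ≤ g * (153 * Y ^ 2 * (a ^ 2 * h)) := by
        calc g * g = g ^ 2 := by ring
          _ ≤ (3 * Y * r) ^ 2 := pow_le_pow_left₀ hg.le h4 2
          _ = 9 * Y ^ 2 * r ^ 2 := by ring
          _ ≤ 9 * Y ^ 2 * (17 * (a ^ 2 * g * h)) :=
              mul_le_mul_of_nonneg_left h5 (mul_nonneg (by norm_num) q2.le)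
          _ = g * (153 * Y ^ 2 * (a ^ 2 * h)) := by ring
      have h9 : g ≤ 153 * Y ^ 2 * (a ^ 2 * h) := le_of_mul_le_mul_left h8 hg
      exact le_trans h9 (habs 153 (by norm_num))
    · have h4 : g ≤ 4 * Y ^ 2 * a := by
        generalize 3 * Y * r = P at h3 hc
        generalize 4 * Y ^ 2 * a = Q at h3 hc
        omega
      have h5 : 4 * Y ^ 2 * a ≤ 4 * Y ^ 2 * (a ^ 2 * h) :=
        mul_le_mul_of_nonneg_left haah (mul_nonneg (by norm_num) q2.le)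
      exact le_trans (le_trans h4 h5) (habs 4 (by norm_num))

/-- Core inequalities over the integers. -/
theorem ps7_core (a b r g h n l Y : ℤ) (ha : 0 < a) (hr : 0 < r) (hg : 0 < g)
    (hh : 0 < h) (hY : 100 ≤ Y) (hn : 1 ≤ n) (hnY : n ≤ Y) (hl : 0 ≤ l) (hlY : l ≤ Y)
    (hrr : r * r = a * b + 1) (hbig : Y ^ 25 < b) (hah : Y ^ 40 < a * h)
    (hgt : 4 * (a * g * h) < b) (hle : b ≤ 16 * (a * g * h))
    (h1 : a ^ 2 * g ≤ 4 * b * Y ^ 4) (h2 : b ≤ Y ^ 4 * (a ^ 2 * g))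
    (hdvd : b ∣ a * (2 * l * (l + 1) - 4 * n ^ 2 - 3 * n) + r * (2 * l + 1) -
      g * (4 * n ^ 2 + n) + h * (2 * n ^ 2 + n)) :
    r * (2 * l + 1) = a * (4 * n ^ 2 + 3 * n - 2 * l * (l + 1)) +
      g * (4 * n ^ 2 + n) - h * (2 * n ^ 2 + n) ∧
    a ^ 2 * h ≤ Y ^ 5 * g ∧ g ≤ Y ^ 5 * (a ^ 2 * h) ∧ h ≤ Y ^ 5 * a ∧ a ≤ Y ^ 6 * h := by
  have hb : 0 < b := lt_trans (ps7_pos Y hY 25) hbig
  have hh1 := ps7_h_lt a b g h Y ha hg hgt h2
  have ha1 := ps7_a_le a b g h Y hY ha hg hle h1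
  have haa := ps7_aa a b g Y hg h1
  have hmast := ps7_master a b Y hY hb hbig haa
  obtain ⟨c1, c2, c3, c4⟩ := ps7_coeff n l Y hY hn hnY hl hlY
  have hzero := ps7_zero a b r g h _ _ _ _ (Y ^ 3) ha hr hg hh c1 c2 c3 c4
    (ps7_A a b Y hY ha hmast) (ps7_R a b r Y hY ha hb hrr hmast)
    (ps7_G a b g h Y hY hg hah hgt) (ps7_H a b h Y hY ha hh1 hmast) hdvd
  have hrel : r * (2 * l + 1) = a * (4 * n ^ 2 + 3 * n - 2 * l * (l + 1)) +
      g * (4 * n ^ 2 + n) - h * (2 * n ^ 2 + n) := by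
    linear_combination hzero
  refine ⟨hrel,
    ps7_c1 a b r g h n l Y ha hr hg hh hY hn hnY hl hlY hrr hah hgt hle haa hrel,
    ps7_c2 a b r g h n l Y ha hr hg hh hY hn hnY hl hlY hrr hle hrel, ?_, ?_⟩
  · have h3 : Y ^ 4 * a ≤ Y ^ 5 * a :=
      mul_le_mul_of_nonneg_right (ps7_mono Y hY 4 5 (by norm_num)) ha.le
    have h4 : h ≤ 4 * h := by linarith only [hh]
    exact le_trans h4 (le_trans hh1.le h3)
  · exact le_trans ha1 (mul_le_mul_of_nonneg_right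
      (ps7_absorb Y hY 64 (by norm_num) 4 6 (by norm_num)) hh.le)

/-- PS7. -/
theorem ps7 : Ps7Statement := by
  intro a b c r s t g u v w h p q k0 μ ν lam Y hab hgb hN hM hν hY hνY hlY habY hahY h1 h2 hdvd
  have hbig := ps7_b_large a b Y hab hY habY
  have e1 : (c : ℤ) = a + b + g + 2 * a * b * g + 2 * (r * (u * v)) := by exact_mod_cast hN.hc
  have e2 : (k0 : ℤ) + r * v = b * u := by exact_mod_cast hM.w_eq'
  have e3 : (k0 : ℤ) = h * u + p * q := by exact_mod_cast hM.w_eq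
  have e4 : (u : ℤ) * u = a * g + 1 := by exact_mod_cast hM.hr
  have e5 : (b : ℤ) = a + g + h + 2 * a * g * h + 2 * (u * (p * q)) := by exact_mod_cast hM.hc
  have hch : (c : ℤ) + h = 2 * (a + b + g + 2 * a * b * g) := by
    linear_combination e1 + 2 * (u : ℤ) * e2 - 2 * (u : ℤ) * e3 + (2 * (b : ℤ) - 2 * h) * e4 + e5
  have hdvd' : (b : ℤ) ∣ a * (2 * lam * (lam + 1) - 4 * (ν : ℤ) ^ 2 - 3 * ν) +
      r * (2 * lam + 1) - g * (4 * (ν : ℤ) ^ 2 + ν) + h * (2 * (ν : ℤ) ^ 2 + ν) := by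
    have h3 : (a : ℤ) * (2 * lam * (lam + 1) - 4 * (ν : ℤ) ^ 2 - 3 * ν) +
      r * (2 * lam + 1) - g * (4 * (ν : ℤ) ^ 2 + ν) + h * (2 * (ν : ℤ) ^ 2 + ν) =
      (2 * a * lam * (lam + 1) + r * (2 * lam + 1) - 2 * c * (ν : ℤ) ^ 2 -
        (a + c - g) * ν) + b * ((2 * (ν : ℤ) ^ 2 + ν) * (2 + 4 * a * g)) := by
      have hc : (c : ℤ) = 2 * (a + b + g + 2 * a * b * g) - h := by linarith
      rw [hc]
      ring
    rw [h3]
    exact dvd_add hdvd (dvd_mul_right _ _)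
  have hr0 : (0 : ℤ) < r := by
    have hrr : (r : ℤ) * r = a * b + 1 := by exact_mod_cast hN.hr
    rcases Nat.eq_zero_or_pos r with h0 | h0
    · rw [h0] at hrr
      push_cast at hrr
      have : (0 : ℤ) ≤ (a : ℤ) * b := by positivity
      linarith
    · exact_mod_cast h0
  obtain ⟨q1, q2, q3, q4, q5⟩ := ps7_core a b r g h ν lam Y (by exact_mod_cast hN.ha) hr0
    (by exact_mod_cast hN.hg) (by exact_mod_cast hM.hg) (by exact_mod_cast hY)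
    (by exact_mod_cast hν) (by exact_mod_cast hνY) (by positivity) (by exact_mod_cast hlY)
    (by exact_mod_cast hN.hr) (by exact_mod_cast hbig) (by exact_mod_cast hahY)
    (by exact_mod_cast hM.c_gt) (by exact_mod_cast hM.c_le) (by exact_mod_cast h1)
    (by exact_mod_cast h2) hdvd'
  exact ⟨q1, by exact_mod_cast q2, by exact_mod_cast q3, by exact_mod_cast q4,
    by exact_mod_cast q5⟩

end Pool.Agent.DIO.H94
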