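import Pool.Agent.Helper40_Dio.FStmt

/-! # DIO (MP_9ca527_nt), Part F, module PG3 -/

set_option autoImplicit false

namespace Pool.Agent.DIO.H94

open Pool.Agent.DIO

/-- The size hypothesis gives `b / a ≥ 1 + 22 m / n`. -/
theorem ratio (a b c n m : ℕ) (ha : 0 < a) (hc : 10 ^ 9 ≤ c) (hn : 1 ≤ n)
    (h : (4 * a * c) ^ m * a ^ n ≤ b ^ n) : a * (n + 22 * m) ≤ b * n := by
  have ha0 : (0 : ℝ) < a := by exact_mod_cast ha
  have ha1 : (1 : ℝ) ≤ a := by exact_mod_cast ha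
  have hn0 : (0 : ℝ) < n := by exact_mod_cast hn
  have hcR : (10 : ℝ) ^ 9 ≤ c := by exact_mod_cast hc
  have hexp : Real.exp 22 ≤ 4 * 10 ^ 9 := by
    have h1 : Real.exp 22 = (Real.exp 1) ^ 22 := by
      rw [← Real.exp_nat_mul]
      norm_num
    rw [h1]
    have h2 := Real.exp_one_lt_d9
    have h3 : (Real.exp 1) ^ 22 ≤ (2.7182818286 : ℝ) ^ 22 :=
      pow_le_pow_left₀ (Real.exp_pos 1).le h2.le 22
    refine h3.trans ?_
    norm_num
  have h1 : (4 * (a : ℝ) * c) ^ m * (a : ℝ) ^ n ≤ (b : ℝ) ^ n := by exact_mod_cast h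
  have h2 : (Real.exp 22) ^ m ≤ (4 * (a : ℝ) * c) ^ m := by
    apply pow_le_pow_left₀ (Real.exp_pos _).le
    refine hexp.trans ?_
    have h6 : 1 * (10 : ℝ) ^ 9 ≤ a * c := mul_le_mul ha1 hcR (by positivity) ha0.le
    rw [mul_assoc]
    rw [one_mul] at h6
    exact mul_le_mul_of_nonneg_left h6 (by norm_num)
  have h3 : (1 + 22 * (m : ℝ) / n) ^ n ≤ (Real.exp 22) ^ m := by
    have h4 : 1 + 22 * (m : ℝ) / n ≤ Real.exp (22 * m / n) := by
      have := Real.add_one_le_exp (22 * (m : ℝ) / n)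
      linarith
    calc (1 + 22 * (m : ℝ) / n) ^ n ≤ (Real.exp (22 * m / n)) ^ n :=
          pow_le_pow_left₀ (by positivity) h4 n
      _ = Real.exp (22 * m) := by
          rw [← Real.exp_nat_mul]
          congr 1
          field_simp
      _ = (Real.exp 22) ^ m := by
          rw [← Real.exp_nat_mul]
          congr 1
          ring
  have h5 : ((1 + 22 * (m : ℝ) / n) * a) ^ n ≤ (b : ℝ) ^ n := by
    rw [mul_pow]
    calc (1 + 22 * (m : ℝ) / n) ^ n * (a : ℝ) ^ n ≤ (4 * (a : ℝ) * c) ^ m * (a : ℝ) ^ n :=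
          mul_le_mul_of_nonneg_right (h3.trans h2) (by positivity)
      _ ≤ (b : ℝ) ^ n := h1
  have h6 : (1 + 22 * (m : ℝ) / n) * a ≤ b :=
    le_of_pow_le_pow_left₀ (by omega) (by positivity) h5
  have h7 : (a : ℝ) * (n + 22 * m) ≤ b * n := by
    have h8 : (1 + 22 * (m : ℝ) / n) * a * n ≤ b * n :=
      mul_le_mul_of_nonneg_right h6 hn0.le
    have h9 : (1 + 22 * (m : ℝ) / n) * a * n = (a : ℝ) * (n + 22 * m) := by
      field_simp
    linarith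
  exact_mod_cast h7

/-- powers of `Y` -/
theorem pow_facts (Y : ℕ) (hY : 100 ≤ Y) : 4 * Y ^ 2 ≤ Y ^ 420 ∧ Y ^ 17 * Y ^ 17 < Y ^ 420 := by
  have h0 : 1 ≤ Y := by omega
  constructor
  · calc 4 * Y ^ 2 ≤ Y * Y ^ 2 := Nat.mul_le_mul_right _ (by omega)
      _ = Y ^ 3 := by ring
      _ ≤ Y ^ 420 := Nat.pow_le_pow_right h0 (by norm_num)
  · rw [← pow_add]
    exact Nat.pow_lt_pow_right (by omega) (by norm_num)

/-- `b > Y ^ 17` -/
theorem b_large (a b Y : ℕ) (hab : a < b) (hY : 100 ≤ Y) (h : Y ^ 420 < a * b) : Y ^ 17 < b := by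
  by_contra hcon
  push Not at hcon
  have h1 : a * b ≤ Y ^ 17 * Y ^ 17 := Nat.mul_le_mul (by omega) hcon
  have h2 := (pow_facts Y hY).2
  omega

theorem exact_core (c A B W G X Z P ε : ℤ) (hA0 : 0 ≤ A) (hA : A ≤ X) (hB0 : 0 ≤ B) (hB : B ≤ X)
    (hW0 : 0 ≤ W) (hW : W ≤ 2 * X) (hG0 : 0 ≤ G) (hG : G ≤ Z) (hX : 4 * X ≤ P) (hZ : 4 * Z ≤ P)
    (hP : 0 ≤ P) (hc : 4 * P < c) (hε : ε = 1 ∨ ε = -1) : |2 * ε * (A - B) + W - G| < c := by
  rw [abs_lt]
  rcases hε with rfl | rfl <;> constructor <;> linarith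

/-- The relation is exact. -/
theorem exact (a b c g Y μ ν : ℕ) (ε : ℤ) (hab : a < b) (hε : ε = 1 ∨ ε = -1) (hνμ : ν < μ)
    (hY : 100 ≤ Y) (hμY : μ ≤ Y) (hc : 4 * (a * b * g) < c)
    (hdvd : (c : ℤ) ∣ relG a b g ε μ ν) (hag : Y ^ 420 < a * g) (habY : Y ^ 420 < a * b) :
    relG a b g ε μ ν = 0 := by
  apply Int.eq_zero_of_abs_lt_dvd hdvd
  have hT := (pow_facts Y hY).1
  generalize Y ^ 420 = T at hT hag habY
  have hcZ : 4 * ((a : ℤ) * b * g) < c := by exact_mod_cast hc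
  have hag' : (T : ℤ) < a * g := by exact_mod_cast hag
  have hab' : (T : ℤ) < a * b := by exact_mod_cast habY
  have hT' : 4 * (Y : ℤ) ^ 2 ≤ T := by exact_mod_cast hT
  have hY' : (100 : ℤ) ≤ Y := by exact_mod_cast hY
  have hμ' : (μ : ℤ) ≤ Y := by exact_mod_cast hμY
  have hνμ' : (ν : ℤ) < μ := by exact_mod_cast hνμ
  have hν0 : (0 : ℤ) ≤ ν := Int.natCast_nonneg _
  have ha0 : (0 : ℤ) ≤ a := Int.natCast_nonneg _
  have hg0 : (0 : ℤ) ≤ g := Int.natCast_nonneg _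
  have hab0 : (a : ℤ) < b := by exact_mod_cast hab
  have hb0 : (0 : ℤ) < b := lt_of_le_of_lt ha0 hab0
  have hμ0 : (0 : ℤ) ≤ μ := Int.natCast_nonneg _
  rw [relG]
  clear hdvd hc hag habY hT hY hμY hνμ hab
  generalize (a : ℤ) = A at *
  generalize (b : ℤ) = B at *
  generalize (g : ℤ) = G at *
  generalize (μ : ℤ) = M at *
  generalize (ν : ℤ) = N at *
  generalize (Y : ℤ) = y at *
  generalize (T : ℤ) = t at *
  generalize (c : ℤ) = C at *
  have hN2 : N ^ 2 ≤ y ^ 2 := pow_le_pow_left₀ hν0 (by linarith) 2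
  have hM2 : M ^ 2 ≤ y ^ 2 := pow_le_pow_left₀ hμ0 hμ' 2
  have hyy : y ≤ y ^ 2 := by
    rw [sq]
    exact le_mul_of_one_le_left (by linarith) (by linarith)
  have hB2 : B * (M + N) ≤ B * (2 * y ^ 2) := mul_le_mul_of_nonneg_left (by linarith) hb0.le
  apply exact_core C (B * N ^ 2) (A * M ^ 2) ((B - A) * (M + N)) (G * (M - N)) (B * y ^ 2)
    (G * y ^ 2) (A * B * G) ε
  · exact mul_nonneg hb0.le (sq_nonneg _)
  · exact mul_le_mul_of_nonneg_left hN2 hb0.le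
  · exact mul_nonneg ha0 (sq_nonneg _)
  · exact mul_le_mul hab0.le hM2 (sq_nonneg _) hb0.le
  · exact mul_nonneg (by linarith) (by linarith)
  · have h1 : (B - A) * (M + N) ≤ B * (M + N) :=
      mul_le_mul_of_nonneg_right (by linarith) (by linarith)
    linarith only [h1, hB2]
  · exact mul_nonneg hg0 (by linarith)
  · exact mul_le_mul_of_nonneg_left (by linarith) hg0
  · have h1 : B * (4 * y ^ 2) ≤ B * (A * G) := mul_le_mul_of_nonneg_left (by linarith) hb0.le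
    linarith only [h1]
  · have h1 : G * (4 * y ^ 2) ≤ G * (A * B) := mul_le_mul_of_nonneg_left (by linarith) hg0
    linarith only [h1]
  · exact mul_nonneg (mul_nonneg ha0 hb0.le) hg0
  · exact hcZ
  · exact hε

/-- Quotient estimate for `ε = 1`. -/
theorem lower (a b n m : ℤ) (ha : 0 < a) (hn : 1 ≤ n) (hm : 1 ≤ m) (hmn : m < n)
    (h : a * (n + 22 * m) ≤ b * n) : 19 * (b * n * m) ≤ 23 * (b * n ^ 2 - a * (n + m) ^ 2) := by
  have hpos : 0 < n + 22 * m := by linarith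
  have h1 : a * (n + 22 * m) * (n + m) ^ 2 ≤ b * n * (n + m) ^ 2 :=
    mul_le_mul_of_nonneg_right h (sq_nonneg _)
  have hbn : 0 < b * n := lt_of_lt_of_le (mul_pos ha hpos) h
  -- enough after multiplication by `n + 22 m`
  have h2 : 0 ≤ (23 * (b * n ^ 2 - a * (n + m) ^ 2) - 19 * (b * n * m)) * (n + 22 * m) := by
    have h3 : (23 * (b * n ^ 2 - a * (n + m) ^ 2) - 19 * (b * n * m)) * (n + 22 * m) =
        23 * (b * n * (n + m) ^ 2 - a * (n + 22 * m) * (n + m) ^ 2) +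
          b * n * (m * (441 * n - 441 * m)) := by ring
    rw [h3]
    have h4 : 0 ≤ b * n * (m * (441 * n - 441 * m)) := by
      apply mul_nonneg hbn.le
      apply mul_nonneg (by linarith)
      linarith
    have h5 : 0 ≤ b * n * (n + m) ^ 2 - a * (n + 22 * m) * (n + m) ^ 2 := sub_nonneg.mpr h1
    positivity
  have h5 := nonneg_of_mul_nonneg_left h2 hpos
  exact sub_nonneg.mp h5

/-- The case `ε = -1`. -/
theorem neg_case (a b g n m : ℤ) (ha : 0 < a) (hg : 0 < g) (hn : 1 ≤ n) (hm : 1 ≤ m)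
    (hmn : m < n) (h : a * (n + 22 * m) ≤ b * n)
    (hrel : -2 * (b * n ^ 2 - a * (n + m) ^ 2) + (b - a) * ((n + m) + n) - g * m = 0) :
    False := by
  have hgm : 0 < g * m := mul_pos hg (by linarith)
  have h1 : b * (2 * n ^ 2 - 2 * n - m) < a * (2 * (n + m) ^ 2 - 2 * n - m) := by
    have h8 : b * (2 * n ^ 2 - 2 * n - m) = a * (2 * (n + m) ^ 2 - 2 * n - m) - g * m -
      (-2 * (b * n ^ 2 - a * (n + m) ^ 2) + (b - a) * ((n + m) + n) - g * m) := by ring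
    rw [h8, hrel]
    linarith only [hgm]
  have hnm : n * m ≤ n * (n - 1) :=
    mul_le_mul_of_nonneg_left (by linarith only [hmn]) (by linarith only [hn])
  have hnm1 : m ≤ n * m := le_mul_of_one_le_left (by linarith only [hm]) hn
  have hc0 : 0 < 2 * n ^ 2 - 2 * n - m := by linarith only [hnm, hnm1, hm]
  have h2 : a * (n + 22 * m) * (2 * n ^ 2 - 2 * n - m) ≤ b * n * (2 * n ^ 2 - 2 * n - m) :=
    mul_le_mul_of_nonneg_right h hc0.le
  have h3 : b * (2 * n ^ 2 - 2 * n - m) * n < a * (2 * (n + m) ^ 2 - 2 * n - m) * n :=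
    mul_lt_mul_of_pos_right h1 (by linarith only [hn])
  have h4 : 0 < a * (n * (2 * (n + m) ^ 2 - 2 * n - m) -
      (n + 22 * m) * (2 * n ^ 2 - 2 * n - m)) := by
    have h8 : a * (n * (2 * (n + m) ^ 2 - 2 * n - m) - (n + 22 * m) * (2 * n ^ 2 - 2 * n - m)) =
      (a * (2 * (n + m) ^ 2 - 2 * n - m) * n - b * (2 * n ^ 2 - 2 * n - m) * n) +
      (b * n * (2 * n ^ 2 - 2 * n - m) - a * (n + 22 * m) * (2 * n ^ 2 - 2 * n - m)) := by ring
    rw [h8]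
    exact add_pos_of_pos_of_nonneg (sub_pos.mpr h3) (sub_nonneg.mpr h2)
  have h5 : 0 < n * (2 * (n + m) ^ 2 - 2 * n - m) - (n + 22 * m) * (2 * n ^ 2 - 2 * n - m) :=
    pos_of_mul_pos_right h4 ha.le
  have h6 : n * (2 * (n + m) ^ 2 - 2 * n - m) - (n + 22 * m) * (2 * n ^ 2 - 2 * n - m) =
      -(m * (40 * n ^ 2 - 44 * n - 22 * m - 2 * n * m)) := by ring
  rw [h6] at h5
  have h7 : 0 < 40 * n ^ 2 - 44 * n - 22 * m - 2 * n * m := by
    have hnn : n * 2 ≤ n * n :=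
      mul_le_mul_of_nonneg_left (by linarith only [hm, hmn]) (by linarith only [hn])
    linarith only [hnn, hnm, hmn, hn]
  have h8 : 0 < m * (40 * n ^ 2 - 44 * n - 22 * m - 2 * n * m) :=
    mul_pos (by linarith only [hm]) h7
  linarith only [h5, h8]

/-- The Euler case. -/
theorem euler_case (a b r n m Y : ℤ) (hb : 0 < b) (hn : 1 ≤ n) (hm : 1 ≤ m)
    (hY : 100 ≤ Y) (hmY : n + m ≤ Y) (hr : r * r = a * b + 1)
    (hrel : 2 * (b * n ^ 2 - a * (n + m) ^ 2) + (b - a) * ((n + m) + n) - (a + b + 2 * r) * m = 0) :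
    b ≤ 5 * Y ^ 4 := by
  have h1 : r * m = b * n * (n + 1) - a * (n + m) * (n + m + 1) := by
    linarith only [hrel]
  have h2 : (b * n ^ 2 - a * (n + m) ^ 2) * (b * (n + 1) ^ 2 - a * (n + m + 1) ^ 2) = m ^ 2 := by
    have h3 : (r * r) * m ^ 2 = (b * n * (n + 1) - a * (n + m) * (n + m + 1)) ^ 2 := by
      rw [← h1]
      ring
    rw [hr] at h3
    linarith only [h3]
  have hid : (n + m + 1) ^ 2 * (b * n ^ 2 - a * (n + m) ^ 2) -
      (n + m) ^ 2 * (b * (n + 1) ^ 2 - a * (n + m + 1) ^ 2) =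
      -(b * (m * (2 * (n + m) * n + (n + m) + n))) := by
    ring
  clear hrel h1 hr
  generalize b * n ^ 2 - a * (n + m) ^ 2 = P at h2 hid
  generalize b * (n + 1) ^ 2 - a * (n + m + 1) ^ 2 = Q at h2 hid
  have hm0 : 0 < m ^ 2 := pow_pos (by linarith) 2
  have hPQ : P * Q ≠ 0 := by rw [h2]; exact hm0.ne'
  have hPd : |P| ≤ m ^ 2 := by
    have : P ∣ m ^ 2 := ⟨Q, h2.symm⟩
    exact Int.le_of_dvd hm0 ((abs_dvd P (m ^ 2)).mpr this)
  have hQd : |Q| ≤ m ^ 2 := by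
    have : Q ∣ m ^ 2 := ⟨P, by rw [← h2]; ring⟩
    exact Int.le_of_dvd hm0 ((abs_dvd Q (m ^ 2)).mpr this)
  have hmY2 : m ^ 2 ≤ Y ^ 2 := pow_le_pow_left₀ (by linarith) (by linarith) 2
  have hb1 : b ≤ b * (m * (2 * (n + m) * n + (n + m) + n)) := by
    apply le_mul_of_one_le_right hb.le
    have h5 : 1 ≤ 2 * (n + m) * n + (n + m) + n := by
      have h6 : 0 ≤ 2 * (n + m) * n := mul_nonneg (by linarith) (by linarith)
      linarith
    calc 1 ≤ m := hm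
      _ ≤ m * (2 * (n + m) * n + (n + m) + n) := le_mul_of_one_le_right (by linarith) h5
  have h5 : (n + m + 1) ^ 2 * (-P) ≤ (n + m + 1) ^ 2 * |P| :=
    mul_le_mul_of_nonneg_left (neg_le_abs P) (sq_nonneg _)
  have h6 : (n + m) ^ 2 * Q ≤ (n + m) ^ 2 * |Q| :=
    mul_le_mul_of_nonneg_left (le_abs_self Q) (sq_nonneg _)
  have h7 : (n + m + 1) ^ 2 * |P| ≤ (2 * Y) ^ 2 * Y ^ 2 :=
    mul_le_mul (pow_le_pow_left₀ (by linarith) (by linarith) 2) (hPd.trans hmY2) (abs_nonneg _)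
      (sq_nonneg _)
  have h8 : (n + m) ^ 2 * |Q| ≤ Y ^ 2 * Y ^ 2 :=
    mul_le_mul (pow_le_pow_left₀ (by linarith) (by linarith) 2) (hQd.trans hmY2) (abs_nonneg _)
      (sq_nonneg _)
  generalize b * (m * (2 * (n + m) * n + (n + m) + n)) = E at hid hb1
  have h9 : E = (n + m + 1) ^ 2 * (-P) + (n + m) ^ 2 * Q := by linarith only [hid]
  have h10 : (2 * Y) ^ 2 * Y ^ 2 + Y ^ 2 * Y ^ 2 = 5 * Y ^ 4 := by ring
  calc b ≤ E := hb1
    _ = (n + m + 1) ^ 2 * (-P) + (n + m) ^ 2 * Q := h9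
    _ ≤ (2 * Y) ^ 2 * Y ^ 2 + Y ^ 2 * Y ^ 2 := add_le_add (h5.trans h7) (h6.trans h8)
    _ = 5 * Y ^ 4 := h10

/-- `b < g` -/
theorem bg_lt (a b g n m : ℤ) (hab : a < b) (hb : 0 < b) (hn : 1 ≤ n) (hm : 1 ≤ m)
    (hrel : 2 * (b * n ^ 2 - a * (n + m) ^ 2) + (b - a) * ((n + m) + n) = g * m)
    (hlow : 19 * (b * n * m) ≤ 23 * (b * n ^ 2 - a * (n + m) ^ 2)) : b < g := by
  have h1 : 0 ≤ (b - a) * ((n + m) + n) := mul_nonneg (by linarith) (by linarith)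
  have h2 : 38 * (b * n) * m ≤ 23 * g * m := by linarith only [h1, hrel, hlow]
  have h3 : 38 * (b * n) ≤ 23 * g := le_of_mul_le_mul_right h2 (by linarith)
  have h4 : b ≤ b * n := le_mul_of_one_le_right hb.le hn
  linarith only [h3, h4, hb]

/-- `g ≤ 6 b Y²` -/
theorem g_le (a b g n m Y : ℤ) (ha : 0 < a) (hab : a < b) (hg : 0 < g) (hn : 1 ≤ n)
    (hm : 1 ≤ m) (hY : 100 ≤ Y) (hnm : n + m ≤ Y)
    (hrel : 2 * (b * n ^ 2 - a * (n + m) ^ 2) + (b - a) * ((n + m) + n) = g * m) :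
    g ≤ 6 * b * Y ^ 2 := by
  have hb : 0 < b := by linarith
  have hν2 : n ^ 2 ≤ Y ^ 2 := pow_le_pow_left₀ (by linarith) (by linarith) 2
  have h1 : b * n ^ 2 ≤ b * Y ^ 2 := mul_le_mul_of_nonneg_left hν2 hb.le
  have h2 : 0 ≤ a * (n + m) ^ 2 := mul_nonneg ha.le (sq_nonneg _)
  have h3 : (b - a) * ((n + m) + n) ≤ b * (2 * Y) :=
    mul_le_mul (by linarith) (by linarith) (by linarith) hb.le
  have h6 : Y ≤ Y ^ 2 := by
    rw [sq]
    exact le_mul_of_one_le_left (by linarith) (by linarith)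
  have h4 : b * (2 * Y) ≤ b * (2 * Y ^ 2) := mul_le_mul_of_nonneg_left (by linarith) hb.le
  have h5 : g ≤ g * m := le_mul_of_one_le_right hg.le hm
  have h7 : 0 ≤ b * Y ^ 2 := mul_nonneg hb.le (sq_nonneg _)
  linarith only [h1, h2, h3, h4, h5, h7, hrel]

/-- sizes of `a h`, `a`, `h`, `p` -/
theorem ahp_le (a b g h p Y : ℤ) (ha : 0 < a) (hb : 0 < b) (hh : 0 < h) (hp : 0 < p)
    (hgc : 4 * (a * b * h) < g) (hg : g ≤ 6 * b * Y ^ 2) (hpp : p * p = a * h + 1) :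
    a * h ≤ 2 * Y ^ 2 ∧ a ≤ 2 * Y ^ 2 ∧ h ≤ 2 * Y ^ 2 ∧ p ≤ 2 * Y ^ 2 + 1 := by
  have hah : a * h ≤ 2 * Y ^ 2 := by
    have h1 : b * (4 * (a * h)) ≤ b * (6 * Y ^ 2) := by linarith only [hgc, hg]
    have h2 := le_of_mul_le_mul_left h1 hb
    have h3 : 0 ≤ Y ^ 2 := sq_nonneg _
    linarith only [h2, h3]
  have h1 : a ≤ a * h := le_mul_of_one_le_right ha.le (by linarith)
  have h2 : h ≤ a * h := le_mul_of_one_le_left hh.le (by linarith)
  have h3 : p ≤ p * p := le_mul_of_one_le_left hp.le (by linarith)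
  exact ⟨hah, h1.trans hah, h2.trans hah, by rw [hpp] at h3; linarith⟩

/-- powers -/
theorem ypow (Y : ℤ) (hY : 100 ≤ Y) : 100 * Y ≤ Y ^ 2 ∧ 100 * Y ^ 2 ≤ Y ^ 3 ∧
    100 * Y ^ 3 ≤ Y ^ 4 ∧ 100 * Y ^ 4 ≤ Y ^ 5 := by
  have h0 : 0 ≤ Y := by linarith
  refine ⟨?_, ?_, ?_, ?_⟩
  · rw [sq]
    exact mul_le_mul_of_nonneg_right hY h0
  · have : Y ^ 3 = Y * Y ^ 2 := by ring
    rw [this]
    exact mul_le_mul_of_nonneg_right hY (pow_nonneg h0 _)
  · have : Y ^ 4 = Y * Y ^ 3 := by ring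
    rw [this]
    exact mul_le_mul_of_nonneg_right hY (pow_nonneg h0 _)
  · have : Y ^ 5 = Y * Y ^ 4 := by ring
    rw [this]
    exact mul_le_mul_of_nonneg_right hY (pow_nonneg h0 _)

/-- bounds of the coefficients -/
theorem coef_le (a h p n m Y : ℤ) (ha : 0 < a) (hh : 0 < h) (hp : 0 < p) (hn : 1 ≤ n)
    (hm : 1 ≤ m) (hY : 100 ≤ Y) (hnm : n + m ≤ Y) (hah : a * h ≤ 2 * Y ^ 2)
    (hpY : p ≤ 2 * Y ^ 2 + 1) :
    |(1 + 2 * (a * h)) * m - 2 * n ^ 2 - (2 * n + m)| ≤ Y ^ 4 ∧ |2 * p * m| ≤ Y ^ 4 := by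
  obtain ⟨y2, y3, y4, -⟩ := ypow Y hY
  have hmY : m ≤ Y := by linarith
  have hn2 : n ^ 2 ≤ Y ^ 2 := pow_le_pow_left₀ (by linarith) (by linarith) 2
  have hn20 : 0 ≤ n ^ 2 := sq_nonneg _
  have hY2 : 0 ≤ Y ^ 2 := sq_nonneg _
  have hY3 : 0 ≤ Y ^ 3 := pow_nonneg (by linarith) _
  have hah0 : 0 < a * h := mul_pos ha hh
  constructor
  · have h1 : (1 + 2 * (a * h)) * m ≤ (1 + 4 * Y ^ 2) * Y :=
      mul_le_mul (by linarith) hmY (by linarith) (by linarith)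
    have h2 : 0 ≤ (1 + 2 * (a * h)) * m := mul_nonneg (by linarith) (by linarith)
    have h3 : (1 + 4 * Y ^ 2) * Y = Y + 4 * Y ^ 3 := by ring
    rw [h3] at h1
    generalize (1 + 2 * (a * h)) * m = E at h1 h2
    rw [abs_le]
    constructor <;> linarith
  · have h1 : 2 * p * m ≤ (2 * (2 * Y ^ 2 + 1)) * Y :=
      mul_le_mul (by linarith) hmY (by linarith) (by linarith)
    have h2 : 0 ≤ 2 * p * m := mul_nonneg (by linarith) (by linarith)
    have h3 : (2 * (2 * Y ^ 2 + 1)) * Y = 4 * Y ^ 3 + 2 * Y := by ring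
    rw [h3] at h1
    rw [abs_of_nonneg h2]
    generalize 2 * p * m = E at h1 h2
    linarith

/-- the end of the non Euler case -/
theorem fin_case (a b h n m Y : ℤ) (ha : 0 < a) (hh : 0 < h) (hn : 1 ≤ n) (hm : 1 ≤ m)
    (hY : 100 ≤ Y) (hnm : n + m ≤ Y) (haY : a ≤ 2 * Y ^ 2) (hhY : h ≤ 2 * Y ^ 2)
    (hbb : b ≤ 10 * (Y ^ 4) ^ 3 *
      (|-(2 * (a * (n + m) ^ 2) + a * (2 * n + m) + m * (a + h))| + 1)) : b ≤ Y ^ 17 := by
  obtain ⟨y2, y3, y4, y5⟩ := ypow Y hY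
  have hY0 : 0 ≤ Y := by linarith
  have hmY : m ≤ Y := by linarith
  have hμ2 : (n + m) ^ 2 ≤ Y ^ 2 := pow_le_pow_left₀ (by linarith) hnm 2
  have h1 : a * (n + m) ^ 2 ≤ (2 * Y ^ 2) * Y ^ 2 :=
    mul_le_mul haY hμ2 (sq_nonneg _) (mul_nonneg (by norm_num) (sq_nonneg _))
  have h2 : a * (2 * n + m) ≤ (2 * Y ^ 2) * (3 * Y) :=
    mul_le_mul haY (by linarith) (by linarith) (mul_nonneg (by norm_num) (sq_nonneg _))
  have h3 : m * (a + h) ≤ Y * (4 * Y ^ 2) :=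
    mul_le_mul hmY (by linarith) (by linarith) hY0
  have p1 : 0 ≤ a * (n + m) ^ 2 := mul_nonneg ha.le (sq_nonneg _)
  have p2 : 0 ≤ a * (2 * n + m) := mul_nonneg ha.le (by linarith)
  have p3 : 0 ≤ m * (a + h) := mul_nonneg (by linarith) (by linarith)
  have e1 : (2 * Y ^ 2) * Y ^ 2 = 2 * Y ^ 4 := by ring
  have e2 : (2 * Y ^ 2) * (3 * Y) = 6 * Y ^ 3 := by ring
  have e3 : Y * (4 * Y ^ 2) = 4 * Y ^ 3 := by ring
  rw [e1] at h1
  rw [e2] at h2
  rw [e3] at h3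
  rw [abs_neg] at hbb
  clear hμ2 hmY hnm haY hhY ha hh hn hm
  generalize a * (n + m) ^ 2 = E1 at *
  generalize a * (2 * n + m) = E2 at *
  generalize m * (a + h) = E3 at *
  have h4 : 0 ≤ 2 * E1 + E2 + E3 := by linarith only [p1, p2, p3]
  rw [abs_of_nonneg h4] at hbb
  have hY2 : 0 ≤ Y ^ 2 := sq_nonneg _
  have hY3 : 0 ≤ Y ^ 3 := pow_nonneg hY0 _
  have hY4 : 0 ≤ Y ^ 4 := pow_nonneg hY0 _
  have h5 : 10 * (2 * E1 + E2 + E3 + 1) ≤ Y ^ 5 := by linarith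
  calc b ≤ 10 * (Y ^ 4) ^ 3 * (2 * E1 + E2 + E3 + 1) := hbb
    _ = (Y ^ 4) ^ 3 * (10 * (2 * E1 + E2 + E3 + 1)) := by ring
    _ ≤ (Y ^ 4) ^ 3 * Y ^ 5 := mul_le_mul_of_nonneg_left h5 (pow_nonneg hY4 _)
    _ = Y ^ 17 := by ring

/-- the linear form -/
theorem form_val (a b g h r p q n m : ℤ)
    (hgeq : g = a + b + h + 2 * a * b * h + 2 * (r * (p * q)))
    (hrel : 2 * (b * n ^ 2 - a * (n + m) ^ 2) + (b - a) * ((n + m) + n) = g * m) :
    ((1 + 2 * (a * h)) * m - 2 * n ^ 2 - (2 * n + m)) * b + 2 * p * m * (r * q) =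
      -(2 * (a * (n + m) ^ 2) + a * (2 * n + m) + m * (a + h)) := by
  rw [hgeq] at hrel
  linarith only [hrel]

/-- positivity of the square root -/
theorem root_pos (x : ℤ) (p : ℕ) (hx : 0 ≤ x) (hpp : (p : ℤ) * p = x + 1) : (0 : ℤ) < p := by
  rcases Nat.eq_zero_or_pos p with h0 | h0
  · rw [h0] at hpp
    push_cast at hpp
    linarith
  · exact_mod_cast h0

/-- the contradiction in the Euler case -/
theorem euler_end (b Y : ℤ) (hY : 100 ≤ Y) (h1 : b ≤ 5 * Y ^ 4) : b ≤ Y ^ 17 := by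
  have h0 : 0 ≤ Y := by linarith
  calc b ≤ 5 * Y ^ 4 := h1
    _ ≤ Y * Y ^ 4 := mul_le_mul_of_nonneg_right (by linarith) (pow_nonneg h0 _)
    _ = Y ^ 5 := by ring
    _ ≤ Y ^ 17 := pow_le_pow_right₀ (by linarith) (by norm_num)

/-- PG3. -/
theorem pg3 (hNET : NetStatement) (hIRR : IrrStatement) : Pg3Statement := by
  intro a b c r s t g u v w ε μ ν Y hab hN hε hν hνμ hμ2 hY hμY hc hpow hdvd hag habY
  have hrel := exact a b c g Y μ ν ε hab hε hνμ hY hμY hN.c_gt hdvd hag habY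
  have hbY := b_large a b Y hab hY habY
  obtain ⟨m, rfl⟩ : ∃ m, μ = ν + m := ⟨μ - ν, by omega⟩
  have hm1 : 1 ≤ m := by omega
  have hmν : m < ν := by omega
  have hm' : ν + m - ν = m := by omega
  rw [hm'] at hpow
  have hrat := ratio a b c ν m hN.ha hc hν hpow
  clear hpow hdvd hag habY hm'
  have ha0 : (0 : ℤ) < a := by exact_mod_cast hN.ha
  have hb0 : (0 : ℤ) < b := by exact_mod_cast hN.hb
  have hg0 : (0 : ℤ) < g := by exact_mod_cast hN.hg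
  have hν0 : (1 : ℤ) ≤ ν := by exact_mod_cast hν
  have hm0 : (1 : ℤ) ≤ m := by exact_mod_cast hm1
  have hmνZ : (m : ℤ) < ν := by exact_mod_cast hmν
  have hratZ : (a : ℤ) * (ν + 22 * m) ≤ b * ν := by exact_mod_cast hrat
  have hYZ : (100 : ℤ) ≤ Y := by exact_mod_cast hY
  have hμYZ : (ν : ℤ) + m ≤ Y := by exact_mod_cast hμY
  have habZ : (a : ℤ) < b := by exact_mod_cast hab
  have hbYZ : (Y : ℤ) ^ 17 < b := by exact_mod_cast hbY
  rw [relG] at hrel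
  push_cast at hrel
  rcases hε with rfl | rfl
  · -- `ε = 1`
    have hrel' : 2 * ((b : ℤ) * (ν : ℤ) ^ 2 - a * ((ν : ℤ) + m) ^ 2) +
        (b - a) * (((ν : ℤ) + m) + ν) = g * m := by linarith only [hrel]
    have hlow := lower a b ν m ha0 hν0 hm0 hmνZ hratZ
    have hbg := bg_lt a b g ν m habZ hb0 hν0 hm0 hrel' hlow
    have hgb := g_le a b g ν m Y ha0 habZ hg0 hν0 hm0 hYZ hμYZ hrel'
    have hbgN : b < g := by exact_mod_cast hbg
    rcases hNET a b g r u v hN.ha hab hbgN hN.hr hN.hu hN.hv with heul | ⟨h, p, q, k0, hN2⟩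
    · -- Euler
      have hg : (g : ℤ) = a + b + 2 * r := by
        rw [heul]
        push_cast
        ring
      have hrr : (r : ℤ) * r = a * b + 1 := by exact_mod_cast hN.hr
      have h1 := euler_case a b r ν m Y hb0 hν0 hm0 hYZ hμYZ hrr
        (by rw [← hg]; linarith only [hrel'])
      exact absurd (euler_end b Y hYZ h1) (not_le.mpr hbYZ)
    · -- not Euler
      have hh0 : (0 : ℤ) < h := by exact_mod_cast hN2.hg
      have hgc : 4 * ((a : ℤ) * b * h) < g := by exact_mod_cast hN2.c_gt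
      have hpp : (p : ℤ) * p = a * h + 1 := by exact_mod_cast hN2.hu
      have hgeq : (g : ℤ) = a + b + h + 2 * a * b * h + 2 * (r * (p * q)) := by
        exact_mod_cast hN2.hc
      have hp0 := root_pos ((a : ℤ) * h) p (mul_pos ha0 hh0).le hpp
      obtain ⟨hah, haY, hhY, hpY⟩ := ahp_le a b g h p Y ha0 hb0 hh0 hp0 hgc hgb hpp
      obtain ⟨hU, hV⟩ := coef_le a h p ν m Y ha0 hh0 hp0 hν0 hm0 hYZ hμYZ hah hpY
      obtain ⟨y2, y3, y4, -⟩ := ypow Y hYZ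
      have hY1 : (1 : ℤ) ≤ (Y : ℤ) ^ 4 := one_le_pow₀ (by linarith only [hYZ])
      have hY20 : (2 : ℤ) * (Y : ℤ) ^ 2 ≤ (Y : ℤ) ^ 4 := by
        have hY20 : 0 ≤ (Y : ℤ) ^ 2 := sq_nonneg _
        have hY30 : 0 ≤ (Y : ℤ) ^ 3 := pow_nonneg (by linarith only [hYZ]) _
        linarith only [y3, y4, hY20, hY30]
      have hNN : (r * q) * (r * q) = (a * b + 1) * (h * b + 1) := by
        have h1 : (r * q) * (r * q) = (r * r) * (q * q) := by ring
        rw [h1, hN2.hr, hN2.hv, Nat.mul_comm b h]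
      have hmain := hIRR a h b (r * q) p
        ((1 + 2 * ((a : ℤ) * h)) * m - 2 * (ν : ℤ) ^ 2 - (2 * ν + m))
        (2 * (p : ℤ) * m) ((Y : ℤ) ^ 4) hN.ha hN2.hg hN.hb hN2.hu hNN hY1
        (haY.trans hY20) (hhY.trans hY20) hU hV
      rcases hmain with ⟨-, hV0⟩ | hbb
      · have : 0 < 2 * (p : ℤ) * m :=
          mul_pos (by linarith only [hp0]) (by linarith only [hm0])
        exact this.ne' hV0
      · have hval := form_val a b g h r p q ν m hgeq hrel'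
        rw [Nat.cast_mul, hval] at hbb
        have h6 := fin_case a b h ν m Y ha0 hh0 hν0 hm0 hYZ hμYZ haY hhY hbb
        exact absurd h6 (not_le.mpr hbYZ)
  · -- `ε = -1`
    exact neg_case a b g ν m ha0 hg0 hν0 hm0 hmνZ hratZ (by linarith only [hrel])

end Pool.Agent.DIO.H94
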